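import Pool.Agent.helper62.QU.Spec

/-!
# Row qu:FUB (MP_07c750_an)

A bounded functional of a convolution on a compact hyperbolic surface is given by a continuous
density.
-/

set_option autoImplicit false

open scoped MatrixGroups ContDiff Topology UpperHalfPlane BoundedContinuousFunction
open UpperHalfPlane MeasureTheory Filter Set

namespace Pool.Agent.QU

/-- the automorphic kernel -/
noncomputable def FUB_P (Γ : Subgroup SL(2, ℝ)) (κ : ℝ → ℝ) (w z : ℍ) : ℝ :=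
  ∑ᶠ γ : Γ, κ (tt z (γ • w))

/-- local finiteness -/
lemma FUB_fin (h1 : TTT_stmt) (h5 : DOB_stmt) {Γ : Subgroup SL(2, ℝ)} {F : Set ℍ} {κ : ℝ → ℝ}
    (hΓ : SurfaceGroup Γ) (hF : NiceDom Γ F) (hκ : RK κ) {K₁ K₂ : Set ℍ} (hK₁ : IsCompact K₁)
    (hK₂ : IsCompact K₂) :
    ∃ S : Finset Γ, ∀ z ∈ K₁, ∀ w ∈ K₂, ∀ γ : Γ, γ ∉ S → κ (tt z (γ • w)) = 0 := by
  obtain ⟨-, -, -, -, -, t6, -, -⟩ := h1
  obtain ⟨s, hs⟩ := hκ.supp
  obtain ⟨R, hR, hR2⟩ := t6 s
  obtain ⟨-, -, -, -, -, d6⟩ := h5 Γ F hΓ hF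
  have hfin := d6 K₂ (Metric.cthickening R K₁) hK₂ (hK₁.cthickening)
  refine ⟨hfin.toFinset, fun z hz w hw γ hγ => ?_⟩
  by_contra hne
  apply hγ
  rw [Set.Finite.mem_toFinset]
  refine ⟨w, hw, ?_⟩
  have h1 : tt z (γ • w) ≤ s := by
    by_contra hlt
    exact hne (hs _ (not_le.1 hlt).le)
  have h2 := hR2 _ _ h1
  rw [dist_comm] at h2
  exact Metric.mem_cthickening_of_dist_le _ z R K₁ hz h2

lemma FUB_P_eq {Γ : Subgroup SL(2, ℝ)} {κ : ℝ → ℝ} {S : Finset Γ} {z w : ℍ}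
    (h : ∀ γ : Γ, γ ∉ S → κ (tt z (γ • w)) = 0) :
    FUB_P Γ κ w z = ∑ γ ∈ S, κ (tt z (γ • w)) := by
  unfold FUB_P
  apply finsum_eq_sum_of_support_subset
  intro γ hγ
  by_contra hn
  exact hγ (h γ hn)

lemma FUB_term_cont (h1 : TTT_stmt) {Γ : Subgroup SL(2, ℝ)} {κ : ℝ → ℝ} (hκ : RK κ) (γ : Γ) :
    Continuous fun p : ℍ × ℍ => κ (tt p.2 (γ • p.1)) := by
  obtain ⟨-, -, -, -, t5, -, -, -⟩ := h1
  have e : Continuous fun p : ℍ × ℍ => ((p.2, γ • p.1) : ℍ × ℍ) := by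
    refine continuous_snd.prodMk ?_
    exact (continuous_const_smul (γ : SL(2, ℝ))).comp continuous_fst
  exact hκ.smooth.continuous.comp (t5.comp e)

/-- joint continuity -/
lemma FUB_cont (h1 : TTT_stmt) (h5 : DOB_stmt) {Γ : Subgroup SL(2, ℝ)} {F : Set ℍ} {κ : ℝ → ℝ}
    (hΓ : SurfaceGroup Γ) (hF : NiceDom Γ F) (hκ : RK κ) :
    Continuous fun p : ℍ × ℍ => FUB_P Γ κ p.1 p.2 := by
  rw [continuous_iff_continuousAt]
  rintro ⟨w, z⟩
  obtain ⟨S, hS⟩ := FUB_fin h1 h5 hΓ hF hκ (isCompact_closedBall z 1) (isCompact_closedBall w 1)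
  have hc : Continuous fun p : ℍ × ℍ => ∑ γ ∈ S, κ (tt p.2 (γ • p.1)) :=
    continuous_finsetSum _ fun γ _ => FUB_term_cont h1 hκ γ
  have hev : (fun p : ℍ × ℍ => ∑ γ ∈ S, κ (tt p.2 (γ • p.1))) =ᶠ[𝓝 (w, z)]
      fun p : ℍ × ℍ => FUB_P Γ κ p.1 p.2 := by
    have hn : Metric.closedBall w 1 ×ˢ Metric.closedBall z 1 ∈ 𝓝 (w, z) :=
      prod_mem_nhds (Metric.closedBall_mem_nhds w one_pos) (Metric.closedBall_mem_nhds z one_pos)
    filter_upwards [hn] with p hp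
    exact (FUB_P_eq (fun γ hγ => hS p.2 hp.2 p.1 hp.1 γ hγ)).symm
  exact hc.continuousAt.congr hev

lemma FUB_inv_z (h1 : TTT_stmt) (Γ : Subgroup SL(2, ℝ)) (κ : ℝ → ℝ) (w z : ℍ) (δ : Γ) :
    FUB_P Γ κ w (δ • z) = FUB_P Γ κ w z := by
  obtain ⟨-, -, -, t4, -, -, -, -⟩ := h1
  unfold FUB_P
  rw [← finsum_comp_equiv (Equiv.mulLeft δ)]
  apply finsum_congr
  intro γ
  rw [Equiv.coe_mulLeft, mul_smul]
  have := t4 (δ : SL(2, ℝ)) z (γ • w)
  exact congrArg κ this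

lemma FUB_inv_w (Γ : Subgroup SL(2, ℝ)) (κ : ℝ → ℝ) (w z : ℍ) (δ : Γ) :
    FUB_P Γ κ (δ • w) z = FUB_P Γ κ w z := by
  unfold FUB_P
  rw [← finsum_comp_equiv (Equiv.mulRight δ) (f := fun γ : Γ => κ (tt z (γ • w)))]
  apply finsum_congr
  intro γ
  rw [Equiv.coe_mulRight, mul_smul]

/-- unfolding -/
lemma FUB_unfold (h1 : TTT_stmt) (h2 : INV_stmt) (h3 : LAK_stmt) (h5 : DOB_stmt)
    {Γ : Subgroup SL(2, ℝ)} {F : Set ℍ} {κ : ℝ → ℝ} (hΓ : SurfaceGroup Γ) (hF : NiceDom Γ F)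
    (hκ : RK κ) {g : ℍ → ℝ} (hg : Inv Γ g) (z : ℍ) :
    conv κ g z = ∫ w in F, g w * FUB_P Γ κ w z := by
  obtain ⟨hcount, hfd, -, hfin, -, -⟩ := h5 Γ F hΓ hF
  have := hcount
  have : SMulInvariantMeasure Γ ℍ (volume : Measure ℍ) := h2.2.1 Γ
  obtain ⟨K, hK, hFK⟩ := hF.rel
  obtain ⟨S, hS⟩ := FUB_fin h1 h5 hΓ hF hκ (isCompact_singleton (x := z)) hK
  have hcz : Continuous fun w : ℍ => κ (tt z w) :=
    hκ.smooth.continuous.comp (h1.2.2.2.2.1.comp (continuous_const.prodMk continuous_id))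
  have hcs : HasCompactSupport fun w : ℍ => κ (tt z w) := by
    have := h3.2.2.1 κ z hκ
    have e : (fun w : ℍ => κ (tt z w)) = fun w : ℍ => κ (tt w z) := by
      funext w
      rw [h1.2.2.1]
    rw [e]
    exact this
  have hint : Integrable (fun w : ℍ => κ (tt z w) • g w) (volume : Measure ℍ) := by
    refine Continuous.integrable_of_hasCompactSupport (hcz.smul hg.1) ?_
    exact hcs.smul_right
  unfold conv
  rw [hfd.integral_eq_tsum'' _ hint]
  rw [tsum_eq_sum (s := S)]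
  · rw [← integral_finsetSum]
    · refine setIntegral_congr_fun hF.meas fun w hw => ?_
      rw [FUB_P_eq (fun γ hγ => hS z rfl w (hFK hw) γ hγ), Finset.mul_sum]
      refine Finset.sum_congr rfl fun γ _ => ?_
      rw [hg.2 γ w, smul_eq_mul, mul_comm]
    · intro γ _
      have hm : MeasurePreserving (fun w : ℍ => γ • w) (volume : Measure ℍ) volume :=
        measurePreserving_smul γ volume
      exact ((hm.integrable_comp_emb (measurableEmbedding_const_smul γ)).2 hint).integrableOn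
  · intro γ hγ
    refine setIntegral_eq_zero_of_forall_eq_zero fun w hw => ?_
    rw [hS z rfl w (hFK hw) γ hγ, zero_smul]

theorem FUB (h1 : TTT_stmt) (h2 : INV_stmt) (h3 : LAK_stmt) (h4 : CVB_stmt) (h5 : DOB_stmt)
    (h6 : BDD_stmt) : FUB_stmt := by
  intro Γ F κ α hΓ hF hκ hα
  have hcont := FUB_cont h1 h5 hΓ hF hκ
  have hcw : ∀ w, Continuous (FUB_P Γ κ w) := fun w =>
    hcont.comp (continuous_const.prodMk continuous_id)
  have hInvP : ∀ w, Inv Γ (FUB_P Γ κ w) := fun w => ⟨hcw w, fun γ z => FUB_inv_z h1 Γ κ w z γ⟩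
  -- the bounded continuous functions
  have hbd : ∀ f : ℍ → ℝ, Inv Γ f → ∃ m : ℝ, ∀ z, |f z| ≤ m := fun f hf => (h6 Γ F f hΓ hF hf).1
  choose M hM using fun w => hbd _ (hInvP w)
  let Pb : ℍ → (ℍ →ᵇ ℝ) := fun w =>
    BoundedContinuousFunction.ofNormedAddCommGroup (FUB_P Γ κ w) (hcw w) (M w) (hM w)
  have hPb : ∀ w z, Pb w z = FUB_P Γ κ w z := fun w z => rfl
  -- continuity in the sup norm
  obtain ⟨K, hK, hKc⟩ := hΓ.cocompact
  have hPbc : Continuous Pb := by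
    rw [continuous_iff_continuousAt]
    intro w
    rw [Metric.continuousAt_iff']
    intro ε hε
    let C2 : C(ℍ × ℍ, ℝ) := ⟨fun p => FUB_P Γ κ p.1 p.2, hcont⟩
    have hcc : Tendsto (fun w' => C2.curry w') (𝓝 w) (𝓝 (C2.curry w)) :=
      C2.curry.continuous.continuousAt
    rw [ContinuousMap.tendsto_iff_forall_isCompact_tendstoUniformlyOn] at hcc
    have := hcc K hK
    rw [Metric.tendstoUniformlyOn_iff] at this
    filter_upwards [this (ε / 2) (half_pos hε)] with w' hw'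
    refine lt_of_le_of_lt ?_ (half_lt_self hε)
    rw [BoundedContinuousFunction.dist_le (half_pos hε).le]
    intro z
    obtain ⟨γ, hγ⟩ := hKc z
    have := (hw' _ hγ).le
    rw [dist_comm] at this
    have e1 : C2.curry w' (γ • z) = Pb w' z := FUB_inv_z h1 Γ κ w' z γ
    have e2 : C2.curry w (γ • z) = Pb w z := FUB_inv_z h1 Γ κ w z γ
    rw [e1, e2] at this
    exact this
  have hPbi : ∀ (γ : Γ) w, Pb (γ • w) = Pb w := by
    intro γ w
    ext z
    exact FUB_inv_w Γ κ w z γ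
  -- the functional on the bounded continuous functions
  let Q : Submodule ℝ (ℍ →ᵇ ℝ) :=
    { carrier := {f | ∀ (γ : Γ) z, f (γ • z) = f z}
      add_mem' := by
        intro f g hf hg γ z
        rw [BoundedContinuousFunction.add_apply, BoundedContinuousFunction.add_apply, hf, hg]
      zero_mem' := fun _ _ => rfl
      smul_mem' := by
        intro c f hf γ z
        rw [BoundedContinuousFunction.smul_apply, BoundedContinuousFunction.smul_apply, hf] }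
  have hQ : ∀ f : Q, Inv Γ (fun z => f.1 z) := fun f => ⟨f.1.continuous, f.2⟩
  obtain ⟨C, hC⟩ := hα.bound
  let A0 : Q →ₗ[ℝ] ℝ :=
    { toFun := fun f => α (fun z => f.1 z)
      map_add' := fun f g => hα.add _ _ (hQ f) (hQ g)
      map_smul' := fun c f => hα.smul c _ (hQ f) }
  let A1 : Q →L[ℝ] ℝ := A0.mkContinuous C (fun f => hC _ _ (hQ f) fun z => f.1.norm_coe_le_norm z)
  obtain ⟨G, hG, -⟩ := exists_extension_norm_eq Q A1
  have hGα : ∀ (f : ℍ →ᵇ ℝ), (∀ (γ : Γ) z, f (γ • z) = f z) → G f = α (fun z => f z) :=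
    fun f hf => hG ⟨f, hf⟩
  refine ⟨fun w => G (Pb w), ⟨G.continuous.comp hPbc, fun γ w => by
    change G (Pb (γ • w)) = G (Pb w)
    rw [hPbi]⟩, ?_⟩
  intro g hg
  obtain ⟨-, -, -, hfin, -, -⟩ := h5 Γ F hΓ hF
  obtain ⟨mg, hmg⟩ := hbd g hg
  obtain ⟨mp, hmp⟩ := hbd (fun w => ‖Pb w‖) ⟨hPbc.norm, fun γ w => by
    change ‖Pb (γ • w)‖ = ‖Pb w‖
    rw [hPbi]⟩
  have hgc := hg.1
  have hint : IntegrableOn (fun w => g w • Pb w) F (volume : Measure ℍ) := by
    refine Measure.integrableOn_of_bounded (M := mg * mp) hfin.ne ?_ ?_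
    · exact (hgc.smul hPbc).aestronglyMeasurable
    · refine Eventually.of_forall fun w => ?_
      rw [norm_smul]
      refine mul_le_mul (hmg w) ?_ (norm_nonneg _) ((abs_nonneg _).trans (hmg w))
      have := hmp w
      rw [abs_of_nonneg (norm_nonneg _)] at this
      exact this
  have hci : Inv Γ (conv κ g) := (h4 ℝ).2.2.2.2.2.2.2 Γ κ g hκ hg
  have hval : ∀ z, (∫ w in F, g w • Pb w) z = conv κ g z := by
    intro z
    have e := (BoundedContinuousFunction.evalCLM ℝ z).integral_comp_comm hint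
    change (BoundedContinuousFunction.evalCLM ℝ z) (∫ w in F, g w • Pb w) = _
    rw [← e, FUB_unfold h1 h2 h3 h5 hΓ hF hκ hg z]
    rfl
  have hfin2 : G (∫ w in F, g w • Pb w) = α (conv κ g) := by
    rw [hGα _ (fun γ z => by rw [hval, hval, hci.2])]
    congr 1
    funext z
    exact hval z
  rw [← hfin2, ← ContinuousLinearMap.integral_comp_comm _ hint]
  refine setIntegral_congr_fun hF.meas fun w _ => ?_
  change G (g w • Pb w) = G (Pb w) * g w
  rw [map_smul, smul_eq_mul, mul_comm]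

end Pool.Agent.QU
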